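import Pool.Agent.W424.FR.All

/-!
# Boundaries of the components of the complement of the exploration path

Critical bond percolation on `δ ℤ²` in a rectangle `D = (-A, B) × (0, H)`, with the counterclockwise
boundary arc from `a = t + i H` to `b = 0` wired and the other one dual-wired. The exploration path
is parametrised by its number of steps: `Rect.curve` is the piecewise linear curve on `[0, 1]` run
at constant speed, and `Rect.law` is the law of (curve, `δ ^ (7/4)` times the number of steps).
Weak limits of these laws as `δ → 0` exist along a subsequence of every sequence of meshes (first
part of `UniformDimension.result`). For every weak limit, almost surely, the points of `D` which, at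
some time `t` at which the limit curve `f` is somewhere else, are on the boundary of a connected
component of the complement of `f [0, t]` (all times and all components together) form a set of
Hausdorff dimension at most `4 / 3`.

Proof: near such a point the curve comes and goes, and some path from the point to a large distance
avoids the curve; on the lattice this gives three arms (open, closed, closed) or (closed, open,
open) in an annulus, whose probability is at most `C (d / k) ^ (2 / 3)` for all radii `d < k`
(`Pool.Agent.W424.KI.u3`: exact three-leg computation at a lattice dislocation, comparison with the
honest annulus and re-randomisation, helper801, helper808, helper658, helper424 and many others, see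
`MP_6bd702_pr.OuterBoundaryUpper`).

Definitions: `Rect`, `Rect.D`, `X`, `Rect.curve`, `Rect.time`, `Rect.law` in
`Pool.Agent.H984R4.NP.Model`; `Dm` and the path `Dm.walk` in `Pool.Agent.H984R4.NP.Defs`.

Parts: helper424 (`W424.FR`: definitions, `T_F`, `T_LAT`, `T_AD`, `T_RP`, `T_HP`; independent
versions by helpers 499, 428, 199, 19), helper313 and helper388 (deterministic parts; also helpers
549, 668), helper45 (open events, boundary points force events), helper743 (the limit; also
helper191), helper435 and helper991 (conclusions); tools from the double point projects of helpers
92, 347 and 462.
-/

set_option autoImplicit false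

namespace Pool.Agent.Results.MP_fe58d8_pr.ComplementBoundaries

open H984N MeasureTheory Filter Topology

/-- The points which, at some time `t` at which the curve is somewhere else, are on the boundary of
a connected component of the complement of the curve up to the time `t`. -/
def exposed (f : C(unitInterval, ℂ)) : Set ℂ :=
  {z | ∃ t : unitInterval, f t ≠ z ∧ ∃ w : ℂ, w ∉ f '' Set.Iic t ∧
    z ∈ frontier (connectedComponentIn (f '' Set.Iic t)ᶜ w)}

theorem result (R : Rect) (δ : ℕ → ℝ) (hδ : ∀ i, 0 < δ i) (hlim : Tendsto δ atTop (𝓝 0))
    (μ : ProbabilityMeasure X) (hμ : Tendsto (fun i => R.law (δ i)) atTop (𝓝 μ)) :
    ∀ᵐ p ∂(μ : Measure X), dimH (exposed p.1 ∩ R.D) ≤ 4 / 3 :=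
  Pool.Agent.W424.FR.rect R δ hδ hlim μ hμ

end Pool.Agent.Results.MP_fe58d8_pr.ComplementBoundaries
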