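import Pool.Agent.Results.MP_fe58d8_pr.UniformDimension
import Pool.Agent.W92.DP.Dich
import Pool.Agent.W92.DP.Asm
import Pool.Agent.W571.DPad
import Pool.Agent.W571.DParms
import Pool.Agent.W801.DPdet
import Pool.Agent.W462.DPL.C
import Pool.Agent.W174.DP.LimL
import Pool.Agent.W52.DPInd
import Pool.Agent.W52.DPOne
import Pool.Agent.W52.DPTwo
import Pool.Agent.W347.DPGood
import Pool.Agent.W598.DPplow
import Pool.Agent.W822.PV.A4s

/-!
# Double points of the scaling limits of the exploration path

Critical bond percolation on `δ ℤ²` in a rectangle `D = (-A, B) × (0, H)`, with the counterclockwise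
boundary arc from `a = t + i H` to `b = 0` wired and the other one dual-wired. The exploration path
is parametrised by its number of steps: `Rect.curve` is the piecewise linear curve on `[0, 1]` run
at constant speed, and `Rect.law` is the law of (curve, `δ ^ (7/4)` times the number of steps).
Weak limits of these laws as `δ → 0` exist along a subsequence of every sequence of meshes (first
part of `UniformDimension.result`). For every weak limit, almost surely, the set of the double
points of the curve in `D` has Hausdorff dimension `3/4`, and the set of its double times has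
Hausdorff dimension `3/7`; the same holds for the part in the disc of radius `ρ` around the end
point `0`, for every `ρ > 0`.

Upper bound: two visits of a small disc with an excursion in between imply four alternating arms
(`Pool.Agent.W92.DP.Dich`), whose probability is of order `(r/R) ^ (5/4)`. Lower bound: second
moment method for the edges with four arms which are glued to the two boundary arcs, at
independent scales around the end point. The curve is not constant on any interval and multiplies
all dimensions by `7/4` (`UniformDimension`), which gives the double times.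

Definitions: `dbl`, `dbt` in `Pool.Agent.W92.DP.Asm`; `Rect`, `Rect.D`, `X`, `Rect.curve`,
`Rect.time`, `Rect.law` in `Pool.Agent.H984R4.NP.Model`; `Dm` and the path `Dm.walk` in
`Pool.Agent.H984R4.NP.Defs`.

Formalisation of the parts: helper52 (one and two point bounds, independence of the scales),
helper174 (lower bound in the limit), helper347 (second moment), helper462 (upper bound in the
limit), helper571 (dual arms, arms of the cross), helper598 (lower bound for the cross), helper801
(double visits), helper822 (four arms in an annulus).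
-/

namespace Pool.Agent.Results.MP_fe58d8_pr.DoublePoints

open H984N MeasureTheory Filter Topology Pool.Agent.W92.DP

theorem result (R : Rect) (δ : ℕ → ℝ) (hδ : ∀ i, 0 < δ i) (hlim : Tendsto δ atTop (𝓝 0))
    (μ : ProbabilityMeasure X) (hμ : Tendsto (fun i => R.law (δ i)) atTop (𝓝 μ)) :
    ∀ᵐ p ∂(μ : Measure X),
      (∀ ρ : ℝ, 0 < ρ →
        dimH {z : ℂ | z ∈ R.D ∧ dist z 0 < ρ ∧ z ∈ dbl p.1} = 3 / 4 ∧
        dimH {s : unitInterval | p.1 s ∈ R.D ∧ dist (p.1 s) 0 < ρ ∧ s ∈ dbt p.1} = 3 / 7) ∧
      dimH {z : ℂ | z ∈ R.D ∧ z ∈ dbl p.1} = 3 / 4 ∧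
      dimH {s : unitInterval | p.1 s ∈ R.D ∧ s ∈ dbt p.1} = 3 / 7 := by
  have hAa : St_Aa := Pool.Agent.W822.PV.A4a_sharp
  have hAd : St_Ad := Pool.Agent.W571.DPad.ad hAa
  have hgd : St_good := Pool.Agent.W347.DPGood.good
    (Pool.Agent.W52.DPOne.one Pool.Agent.W598.DP.plow) (Pool.Agent.W52.DPTwo.two hAa)
  have hdet : St_det := Pool.Agent.W801.DPdet.det Pool.Agent.W571.DParms.arms
  have h1 : ∀ᵐ p ∂(μ : Measure X), ∀ k : ℕ, dimH (DPt (1 / ((k:ℝ) + 1)) p.1 ∩ R.D) ≤ 3/4 := by
    rw [ae_all_iff]
    intro k
    exact Pool.Agent.W462.DPL.limU st_U hAa hAd R δ hδ hlim μ hμ _ (by positivity)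
  have h2 : ∀ᵐ p ∂(μ : Measure X), ∀ j k : ℕ, ENNReal.ofReal (3/4 - 1 / ((k:ℝ) + 2)) ≤
      dimH {z : ℂ | z ∈ R.D ∧ dist z 0 < 1 / ((j:ℝ) + 1) ∧ ∃ η : ℝ, 0 < η ∧ z ∈ DPt η p.1} := by
    rw [ae_all_iff]
    intro j
    rw [ae_all_iff]
    intro k
    have hk : (1:ℝ) / ((k:ℝ) + 2) ≤ 1/2 := by
      apply div_le_div_of_nonneg_left (by norm_num) (by norm_num)
      have : (0:ℝ) ≤ k := Nat.cast_nonneg k
      linarith
    have hk2 : (0:ℝ) < 1 / ((k:ℝ) + 2) := by positivity
    exact Pool.Agent.W174.DP.limL hgd Pool.Agent.W52.DPInd.ind hdet R δ hδ hlim μ hμ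
      (3/4 - 1 / ((k:ℝ) + 2)) (by linarith) (by linarith) _ (by positivity)
  filter_upwards [h1, h2, (UniformDimension.result R).2 δ hδ hlim μ hμ] with p p1 p2 p3
  exact asm p1 p2 p3

end Pool.Agent.Results.MP_fe58d8_pr.DoublePoints
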