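import Pool.Agent.W808.HU.All

/-!
Critical bond percolation on the square lattice in the half-plane `{(x, y) : y ≤ x}` (free boundary):
sharp bounds for the probability that `k` neighbouring boundary vertices are in `k` different open
clusters which all reach distance `R`, that is, for `2 k - 1` alternating boundary arms.
-/

set_option autoImplicit false

namespace Pool.Agent.Results.MP_fe58d8_pr.HalfPlaneOddArms

open Finset

/-- Vertices of the square lattice. -/
abbrev Vertex := ℤ × ℤ

/-- Edges: `(x, y, true)` joins `(x, y)` to `(x + 1, y)` and `(x, y, false)` joins `(x, y)` to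
`(x, y + 1)`. -/
abbrev Edge := ℤ × ℤ × Bool

/-- First endpoint of an edge. -/
def src (e : Edge) : Vertex := (e.1, e.2.1)

/-- Second endpoint of an edge. -/
def tgt (e : Edge) : Vertex := if e.2.2 then (e.1 + 1, e.2.1) else (e.1, e.2.1 + 1)

/-- `u` and `v` are joined by an edge of `F`. -/
def Adj (F : Set Edge) (u v : Vertex) : Prop :=
  ∃ e ∈ F, (src e = u ∧ tgt e = v) ∨ (src e = v ∧ tgt e = u)

/-- `u` and `v` are joined by a path of edges of `F`. -/
def Conn (F : Set Edge) (u v : Vertex) : Prop := Relation.ReflTransGen (Adj F) u v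

/-- The vertices `(x, y)` with `|x|, |y| ≤ R` and `y ≤ x`: the box of radius `R` of the half-plane. -/
noncomputable def halfBox (R : ℕ) : Finset Vertex :=
  (Finset.Icc (-(R : ℤ)) R ×ˢ Finset.Icc (-(R : ℤ)) R).filter (fun v => v.2 ≤ v.1)

/-- The edges of the square lattice with both endpoints in `T`. -/
noncomputable def edges (T : Finset Vertex) : Finset Edge :=
  (T ×ˢ (Finset.univ : Finset Bool)).image (fun p => ((p.1.1, p.1.2, p.2) : Edge)) |>.filter
    (fun e => src e ∈ T ∧ tgt e ∈ T)

/-- The boundary vertices `(0, 0), …, (k - 1, k - 1)` are in different clusters of the open edges `F` and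
each of them is connected to a vertex at sup-distance `R` from the origin. -/
def Arms (k R : ℕ) (F : Set Edge) : Prop :=
  (∀ i j : ℕ, i < k → j < k → i ≠ j → ¬ Conn F ((i : ℤ), (i : ℤ)) ((j : ℤ), (j : ℤ))) ∧
  (∀ i : ℕ, i < k → ∃ y : Vertex, max |y.1| |y.2| = (R : ℤ) ∧ Conn F ((i : ℤ), (i : ℤ)) y)

open Classical in
/-- The probability of `Arms k R` when every edge of the half box is open with probability `1 / 2`
independently; that is, the proportion of the sets `F` of edges of the half box with this property. -/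
noncomputable def prob (k R : ℕ) : ℝ :=
  (((edges (halfBox R)).powerset.filter (fun F : Finset Edge => Arms k R (↑F : Set Edge))).card : ℝ) /
    2 ^ (edges (halfBox R)).card

theorem mem_edges {R : ℕ} {e : Edge} : e ∈ edges (halfBox R) ↔
    e ∈ Pool.Agent.W808.HU.hbx (R : ℤ) := by
  obtain ⟨x, y, b⟩ := e
  unfold edges halfBox Pool.Agent.W808.HU.hbx H906.Cyl.dco Pool.Agent.H160R2.ML.nm
  simp only [Finset.mem_filter, Finset.mem_image, Finset.mem_product, Finset.mem_univ, and_true,
    Finset.mem_Icc, Prod.exists, Prod.mk.injEq, Set.mem_ofPred_eq, max_le_iff, abs_le]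
  cases b
  · simp only [src, tgt, H974.src, H974.tgt, Bool.false_eq_true, if_false]
    constructor
    · rintro ⟨-, h1, h2⟩
      omega
    · rintro ⟨h1, h2, h3⟩
      exact ⟨⟨x, y, false, by omega, by simp⟩, by omega, by omega⟩
  · simp only [src, tgt, H974.src, H974.tgt, if_true]
    constructor
    · rintro ⟨-, h1, h2⟩
      omega
    · rintro ⟨h1, h2, h3⟩
      exact ⟨⟨x, y, true, by omega, by simp⟩, by omega, by omega⟩

theorem conn_iff (F : Set Edge) (u v : Vertex) : Conn F u v ↔ H974.Reach F u v := Iff.rfl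

theorem prob_eq (k R : ℕ) : prob k R = Pool.Agent.W808.HU.sPh k R := by
  classical
  have h1 : Pool.Agent.W808.HU.sPh k R =
      H974.Pr (fun _ => (1 / 2 : ℝ)) (edges (halfBox R))
        (fun F => Pool.Agent.W808.HU.SEh k R (↑F : Set Edge)) := by
    unfold Pool.Agent.W808.HU.sPh
    refine H974.Pr_local (fun e he => ?_) (fun F _ => ?_)
    · exact Pool.Agent.W808.HU.TMON.hbx_sub_box (mem_edges.1 he)
    · refine Pool.Agent.W808.HU.TMON.seh_congr fun e he => ?_
      rw [Finset.mem_coe, Finset.mem_coe, Finset.mem_inter]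
      exact ⟨fun h => ⟨h, mem_edges.2 he⟩, fun h => h.1⟩
  have h2 : ∀ F ⊆ edges (halfBox R),
      (Pool.Agent.W808.HU.SEh k R (↑F : Set Edge) ↔ Arms k R (↑F : Set Edge)) := by
    intro F hF
    have h3 : (↑F : Set Edge) ∩ Pool.Agent.W808.HU.hbx (R : ℤ) = (↑F : Set Edge) := by
      refine Set.inter_eq_left.2 fun e he => ?_
      exact mem_edges.1 (hF (Finset.mem_coe.1 he))
    have h4 : ∀ i : ℕ, Pool.Agent.W808.HU.sv 0 0 i = ((i : ℤ), (i : ℤ)) := by
      intro i
      unfold Pool.Agent.W808.HU.sv
      simp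
    unfold Pool.Agent.W808.HU.SEh Arms
    rw [h3]
    simp only [h4]
    exact Iff.rfl
  rw [h1, H974.Pr_congr h2, H906.Cyl.Pr_half]
  unfold prob
  have h5 : ∑ F ∈ (edges (halfBox R)).powerset, H974.ind (Arms k R (↑F : Set Edge)) =
      (((edges (halfBox R)).powerset.filter
        (fun F : Finset Edge => Arms k R (↑F : Set Edge))).card : ℝ) := by
    rw [Finset.card_filter]
    push_cast
    refine Finset.sum_congr rfl fun F _ => ?_
    by_cases h : Arms k R (↑F : Set Edge)
    · rw [H974.ind_of h, if_pos h]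
    · rw [H974.ind_not_of h, if_neg h]
  rw [h5, one_div, inv_pow, mul_comm, div_eq_mul_inv]

/-- **Sharp bounds for all odd numbers of boundary arms.** For every `k ≥ 2` the probability that the
boundary vertices `(0, 0), …, (k - 1, k - 1)` of the half-plane are in `k` different open clusters which
reach distance `R` is of order `R ^ (- k (2 k - 1) / 3)`, i.e. `R ^ (- j (j + 1) / 6)` with `j = 2 k - 1`
alternating arms. -/
theorem result (k : ℕ) (hk : 2 ≤ k) : ∃ c C : ℝ, 0 < c ∧ 0 < C ∧ ∀ R : ℕ, k ≤ R →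
    c * (R : ℝ) ^ (-((k : ℝ) * (2 * k - 1) / 3)) ≤ prob k R ∧
    prob k R ≤ C * (R : ℝ) ^ (-((k : ℝ) * (2 * k - 1) / 3)) := by
  obtain ⟨c, C, hc, hC, h⟩ := Pool.Agent.W808.HU.a_SHARP k hk
  refine ⟨c, C, hc, hC, fun R hR => ?_⟩
  rw [prob_eq]
  exact h R hR

end Pool.Agent.Results.MP_fe58d8_pr.HalfPlaneOddArms
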