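import Pool.Agent.W808.TA.OddA
import Pool.Agent.W424.KI.Fin
import Pool.Agent.W808.KY.All
import Pool.Agent.W658.KG.All0
import Pool.Agent.W658.KT.All0

/-!
Critical bond percolation on the square lattice `ℤ²`: upper bounds of the predicted order for the
probability of `2 k + 1` arms in the plane, `k ≥ 1`.

The configuration is a random element of `Z2.edgeSet → Bool`, distributed according to the infinite
product of fair Bernoulli measures.
-/

set_option autoImplicit false

namespace Pool.Agent.Results.MP_fe58d8_pr.OddArms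

open MeasureTheory

/-- The square lattice `ℤ²`: `u` and `v` are adjacent when their `ℓ¹` distance is `1`. -/
def Z2 : SimpleGraph (ℤ × ℤ) where
  Adj u v := |u.1 - v.1| + |u.2 - v.2| = 1
  symm := ⟨fun u v h => by rw [abs_sub_comm v.1, abs_sub_comm v.2]; exact h⟩
  loopless := ⟨fun u h => by simp at h⟩

/-- Critical bond percolation: the edges of `ℤ²` are open (`true`) or closed (`false`) with
probability `1 / 2` each, independently. -/
noncomputable def crit : Measure (Z2.edgeSet → Bool) :=
  Measure.infinitePi (fun _ => ProbabilityTheory.bernoulliMeasure true false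
    ⟨1/2, by norm_num, by norm_num⟩)

/-- The edges of the annulus: both endpoints in the box `[-n, n]²`, not both in the box
`[-d, d]²`. -/
def ann (d n : ℕ) : Set (Sym2 (ℤ × ℤ)) :=
  {e | e ∈ Z2.edgeSet ∧ (∀ v ∈ e, max |v.1| |v.2| ≤ n) ∧ ∃ v ∈ e, (d : ℤ) < max |v.1| |v.2|}

/-- The graph of the open edges of the annulus. -/
def openAnn (d n : ℕ) (ω : Z2.edgeSet → Bool) : SimpleGraph (ℤ × ℤ) :=
  SimpleGraph.fromEdgeSet {e | e ∈ ann d n ∧ ∃ h : e ∈ Z2.edgeSet, ω ⟨e, h⟩ = true}

/-- The graph of all the edges of the annulus, open or closed, both endpoints of which avoid the set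
`C`. -/
def avoid (d n : ℕ) (C : Set (ℤ × ℤ)) : SimpleGraph (ℤ × ℤ) :=
  SimpleGraph.fromEdgeSet {e | e ∈ ann d n ∧ ∀ v ∈ e, v ∉ C}

/-- **`2 k + 1` arms.** There are `k` vertices at sup-distance `d` from the origin whose open clusters
in the annulus are pairwise different and contain vertices at sup-distance `n`, and there is a lattice
path of the annulus from sup-distance `d` to sup-distance `n` which avoids these clusters.  (For
`d < n`: `k` open arms, and `k + 1` dual-open arms, one between any two consecutive open arms except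
that the lattice path separates two neighbouring dual-open arms.) -/
def Arms (k d n : ℕ) (ω : Z2.edgeSet → Bool) : Prop :=
  ∃ (u : Fin k → ℤ × ℤ) (x y : ℤ × ℤ),
    (∀ i, max |(u i).1| |(u i).2| = d ∧
      ∃ w : ℤ × ℤ, max |w.1| |w.2| = n ∧ (openAnn d n ω).Reachable (u i) w) ∧
    (∀ i j, i ≠ j → ¬ (openAnn d n ω).Reachable (u i) (u j)) ∧
    max |x.1| |x.2| = d ∧ max |y.1| |y.2| = n ∧
    (∀ i, ¬ (openAnn d n ω).Reachable (u i) x) ∧
    (avoid d n {v | ∃ i, (openAnn d n ω).Reachable (u i) v}).Reachable x y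

/-- **Upper bounds for all odd numbers of arms in the plane.** In critical bond percolation on `ℤ²`,
for every `k ≥ 1` and every inner radius `d ≥ 1` there is a constant `C` such that for all `n ≥ d` the
probability of `2 k + 1` arms in the annulus between the boxes `[-d, d]²` and `[-n, n]²` is at most
`C n ^ (-((2 k + 1)² - 1) / 12)`. -/
theorem result (k d : ℕ) (hk : 1 ≤ k) (hd : 1 ≤ d) : ∃ C : ℝ, 0 < C ∧ ∀ n : ℕ, d ≤ n →
    crit.real {ω | Arms k d n ω} ≤ C * (n : ℝ) ^ (-((2 * (k : ℝ) + 1) ^ 2 - 1) / 12) := by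
  obtain ⟨C, hC, h⟩ := Pool.Agent.W808.TA.finA Pool.Agent.W424.KI.u3
    (Pool.Agent.W658.KT.b_ANN (Pool.Agent.W658.KG.b_HON Pool.Agent.W808.KY.a_UY)) k d hk hd
  exact ⟨C, hC, fun n hn => h n hn⟩

end Pool.Agent.Results.MP_fe58d8_pr.OddArms
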